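import Mathlib

/-!
# MP_19d06a_co: VC-dimension of nilprogressions is unbounded

Already for abelian groups (nilpotency class at most one) and rank `k = 4` (hence every `k ≥ 4`)
the VC-dimension of the family of translates of generalized progressions is unbounded.
-/

namespace Pool.Agent.Results.MP_19d06a_co.UnboundedAbelianRankFour

/-- The set system `S` shatters the finite set `Y`. -/
def Shatters {X : Type} (S : Set (Set X)) (Y : Finset X) : Prop :=
  ∀ B : Finset X, B ⊆ Y → ∃ A ∈ S, A ∩ (Y : Set X) = (B : Set X)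

/-- The VC-dimension of a set system: the supremum of the sizes of the finite shattered sets. -/
noncomputable def vcDim {X : Type} (S : Set (Set X)) : ℕ∞ :=
  ⨆ (Y : Finset X) (_ : Shatters S Y), (Y.card : ℕ∞)

/-- The family of left translates `g A`. -/
def translates {G : Type} [Group G] (A : Set G) : Set (Set G) :=
  {T | ∃ g : G, T = (fun x => g * x) '' A}

/-- The value of a letter: `(i, true)` stands for `a i`, and `(i, false)` for `(a i)⁻¹`. -/
def letter {G : Type} [Group G] {k : ℕ} (a : Fin k → G) (l : Fin k × Bool) : G :=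
  if l.2 = true then a l.1 else (a l.1)⁻¹

/-- The generalized progression `P(a, N)`: values of words in the letters `a i`, `(a i)⁻¹` in
which, for every `i`, the two letters of index `i` together occur at most `N i` times. -/
def prog {G : Type} [Group G] {k : ℕ} (a : Fin k → G) (N : Fin k → ℕ) : Set G :=
  {g | ∃ w : List (Fin k × Bool),
    (∀ i, w.count (i, true) + w.count (i, false) ≤ N i) ∧ (w.map (letter a)).prod = g}

/-- The statement of Q1. -/
def UniformBound : Prop :=
  ∀ k s : ℕ, 1 ≤ k → 1 ≤ s → ∃ C : ℕ, ∀ (G : Type) [Group G] [Group.IsNilpotent G],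
    Group.nilpotencyClass G ≤ s → ∀ (a : Fin k → G) (N : Fin k → ℕ),
      vcDim (translates (prog a N)) ≤ (C : ℕ∞)

section words

variable {G : Type} [CommGroup G] {k : ℕ}

theorem prog_mul {a : Fin k → G} {N M : Fin k → ℕ} {g h : G}
    (hg : g ∈ prog a N) (hh : h ∈ prog a M) : g * h ∈ prog a (N + M) := by
  obtain ⟨w, hw, rfl⟩ := hg
  obtain ⟨v, hv, rfl⟩ := hh
  refine ⟨w ++ v, fun i => ?_, by simp⟩
  have h1 := hw i
  have h2 := hv i
  simp only [List.count_append, Pi.add_apply]
  omega

theorem prog_mono {a : Fin k → G} {N M : Fin k → ℕ} (h : ∀ i, N i ≤ M i) {g : G}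
    (hg : g ∈ prog a N) : g ∈ prog a M := by
  obtain ⟨w, hw, rfl⟩ := hg
  exact ⟨w, fun i => (hw i).trans (h i), rfl⟩

theorem prog_zpow (a : Fin k → G) (i : Fin k) (n : ℤ) :
    a i ^ n ∈ prog a (Pi.single i n.natAbs) := by
  obtain ⟨m, rfl | rfl⟩ := n.eq_nat_or_neg
  · refine ⟨List.replicate m (i, true), fun j => ?_, ?_⟩
    · by_cases hj : j = i
      · subst hj
        simp [List.count_replicate]
      · have hj' : i ≠ j := fun h => hj h.symm
        simp [List.count_replicate, hj']
    · simp [letter]
  · refine ⟨List.replicate m (i, false), fun j => ?_, ?_⟩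
    · by_cases hj : j = i
      · subst hj
        simp [List.count_replicate]
      · have hj' : i ≠ j := fun h => hj h.symm
        simp [List.count_replicate, hj']
    · simp [letter]

theorem prog_prod (a : Fin k → G) (n : Fin k → ℤ) (s : Finset (Fin k)) :
    ∏ i ∈ s, a i ^ n i ∈ prog a (∑ i ∈ s, Pi.single i (n i).natAbs) := by
  classical
  induction s using Finset.induction_on with
  | empty => exact ⟨[], by simp, by simp⟩
  | insert i s hi ih =>
    rw [Finset.prod_insert hi, Finset.sum_insert hi]
    exact prog_mul (prog_zpow a i (n i)) ih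

theorem word_value (a : Fin k → G) (w : List (Fin k × Bool)) :
    (w.map (letter a)).prod =
      ∏ i, a i ^ ((w.count (i, true) : ℤ) - (w.count (i, false) : ℤ)) := by
  classical
  induction w with
  | nil => simp
  | cons l w ih =>
    rw [List.map_cons, List.prod_cons, ih]
    obtain ⟨j, b⟩ := l
    have key : letter a (j, b) =
        ∏ i, a i ^ (if i = j then (if b = true then (1 : ℤ) else -1) else 0) := by
      rw [Finset.prod_eq_single j]
      · cases b <;> simp [letter]
      · intro i _ hi
        simp [hi]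
      · intro h
        exact absurd (Finset.mem_univ j) h
    rw [key, ← Finset.prod_mul_distrib]
    refine Finset.prod_congr rfl fun i _ => ?_
    rw [← zpow_add]
    congr 1
    rw [List.count_cons, List.count_cons]
    by_cases hij : i = j
    · subst hij
      cases b <;> simp <;> ring
    · have hji : j ≠ i := fun h => hij h.symm
      simp [hij, hji]

theorem mem_prog (a : Fin k → G) (N : Fin k → ℕ) (g : G) :
    g ∈ prog a N ↔ ∃ n : Fin k → ℤ, (∀ i, (n i).natAbs ≤ N i) ∧ ∏ i, a i ^ n i = g := by
  classical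
  constructor
  · rintro ⟨w, hw, rfl⟩
    refine ⟨fun i => (w.count (i, true) : ℤ) - (w.count (i, false) : ℤ), fun i => ?_,
      (word_value a w).symm⟩
    have := hw i
    simp only
    omega
  · rintro ⟨n, hn, rfl⟩
    refine prog_mono (fun i => ?_) (prog_prod a n Finset.univ)
    rw [Finset.sum_apply, Finset.sum_eq_single i]
    · simpa using hn i
    · intro j _ hj
      simp [hj.symm]
    · intro h
      exact absurd (Finset.mem_univ i) h

end words

/-- The combinatorial core: independence of the sets `[0, w i] + l [0, h i]` modulo `m`. -/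
theorem core (d : ℕ) : ∃ (m : ℕ) (l : ℤ) (w h : Fin d → ℕ), 0 < m ∧ IsCoprime l (m : ℤ) ∧
    (∀ i, h i < m) ∧
    ∀ B : Fin d → Prop, ∃ c : ℤ, ∀ i,
      (∃ x y : ℕ, x ≤ w i ∧ y ≤ h i ∧ (m : ℤ) ∣ c - x - l * y) ↔ B i := by
  induction d with
  | zero =>
    exact ⟨1, 0, Fin.elim0, Fin.elim0, one_pos, by simp [isCoprime_zero_left],
      fun i => i.elim0, fun B => ⟨0, fun i => i.elim0⟩⟩
  | succ d ih =>
    obtain ⟨m, l, w, h, hm, hcop, hh, hB⟩ := ih
    refine ⟨3 * m ^ 2, 3 * m * l + 1, Fin.snoc (fun i => 3 * m * w i + (3 * m - 1)) m,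
      Fin.snoc h (m - 1), by positivity, ?_, ?_, ?_⟩
    · have h1 : IsCoprime (3 * (m : ℤ) * l + 1) (3 * m) := ⟨1, -l, by ring⟩
      have h2 : IsCoprime (3 * (m : ℤ) * l + 1) (m : ℤ) := ⟨1, -(3 * l), by ring⟩
      have h3 := h1.mul_right h2
      push_cast
      have : (3 * (m : ℤ) ^ 2) = 3 * m * m := by ring
      rw [this]
      exact h3
    · intro i
      refine Fin.lastCases ?_ (fun i => ?_) i
      · rw [Fin.snoc_last]
        nlinarith [Nat.sub_le m 1]
      · rw [Fin.snoc_castSucc]
        nlinarith [hh i]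
    · intro B
      obtain ⟨c, hc⟩ := hB (fun i => B i.castSucc)
      classical
      obtain ⟨s, hs1, hs2, hs3⟩ : ∃ s : ℕ, m ≤ s ∧ s ≤ 3 * m - 1 ∧
          ((B (Fin.last d) ∧ s = m) ∨ (¬ B (Fin.last d) ∧ s = 3 * m - 1)) := by
        by_cases hb : B (Fin.last d)
        · exact ⟨m, le_rfl, by omega, Or.inl ⟨hb, rfl⟩⟩
        · exact ⟨3 * m - 1, by omega, le_rfl, Or.inr ⟨hb, rfl⟩⟩
      refine ⟨3 * m * c + s, fun i => ?_⟩
      refine Fin.lastCases ?_ (fun i => ?_) i
      · rw [Fin.snoc_last, Fin.snoc_last]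
        constructor
        · rintro ⟨x, y, hx, hy, hxy⟩
          rcases hs3 with ⟨hb, _⟩ | ⟨hb, hs⟩
          · exact hb
          · exfalso
            have h3 : (3 * (m : ℤ)) ∣ (s : ℤ) - x - y := by
              have h4 : (3 * (m : ℤ)) ∣ 3 * m * c + s - x - (3 * m * l + 1) * y := by
                refine dvd_trans ⟨m, ?_⟩ hxy
                push_cast
                ring
              have h5 : (s : ℤ) - x - y =
                  (3 * m * c + s - x - (3 * m * l + 1) * y) - 3 * m * (c - l * y) := by ring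
              rw [h5]
              exact dvd_sub h4 (dvd_mul_right _ _)
            have h6 : (0 : ℤ) < (s : ℤ) - x - y := by omega
            have h7 := Int.le_of_dvd h6 h3
            omega
        · intro hb
          rcases hs3 with ⟨_, hs⟩ | ⟨hb', _⟩
          · obtain ⟨u, v, huv⟩ := hcop
            -- y = c * u mod m
            have hmz : (0 : ℤ) < m := by exact_mod_cast hm
            obtain ⟨y, hy⟩ := Int.eq_ofNat_of_zero_le (Int.emod_nonneg (c * u) hmz.ne')
            have hylt : (y : ℤ) < m := by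
              rw [← hy]
              exact Int.emod_lt_of_pos _ hmz
            have hdiv : (m : ℤ) ∣ c - l * y := by
              have h8 : (m : ℤ) ∣ c * u - y := by
                rw [← hy]
                exact Int.dvd_self_sub_emod
              have h9 : c - l * y = l * (c * u - y) + m * (c * v) := by
                linear_combination (-c) * huv
              rw [h9]
              exact dvd_add (h8.mul_left _) (dvd_mul_right _ _)
            refine ⟨m - y, y, by omega, by omega, ?_⟩
            obtain ⟨t, ht⟩ := hdiv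
            refine ⟨t, ?_⟩
            have hyle : y ≤ m := by omega
            push_cast [Nat.cast_sub hyle]
            rw [hs]
            linear_combination (3 * (m : ℤ)) * ht
          · exact absurd hb hb'
      · rw [Fin.snoc_castSucc, Fin.snoc_castSucc]
        rw [← hc i]
        have hhi := hh i
        constructor
        · rintro ⟨x, y, hx, hy, hxy⟩
          -- x = 3 m q + r
          refine ⟨x / (3 * m), y, ?_, hy, ?_⟩
          · have : x < (w i + 1) * (3 * m) := by
              have h1 : (w i + 1) * (3 * m) = 3 * m * w i + 3 * m := by ring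
              omega
            have := Nat.div_lt_of_lt_mul (by rw [mul_comm] at this; exact this : x < 3 * m * (w i + 1))
            omega
          · have hxr := Nat.div_add_mod x (3 * m)
            have hr : x % (3 * m) < 3 * m := Nat.mod_lt _ (by omega)
            set q := x / (3 * m) with hq
            set r := x % (3 * m) with hrdef
            have h3 : (3 * (m : ℤ)) ∣ (s : ℤ) - y - r := by
              have h4 : (3 * (m : ℤ)) ∣ 3 * m * c + s - x - (3 * m * l + 1) * y := by
                refine dvd_trans ⟨m, ?_⟩ hxy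
                push_cast
                ring
              have h5 : (s : ℤ) - y - r =
                  (3 * m * c + s - x - (3 * m * l + 1) * y) - 3 * m * (c - l * y - q) := by
                rw [← hxr]
                push_cast
                ring
              rw [h5]
              exact dvd_sub h4 (dvd_mul_right _ _)
            have h6 : (s : ℤ) - y - r = 0 := by
              apply Int.eq_zero_of_abs_lt_dvd h3
              rw [abs_lt]
              constructor <;> omega
            obtain ⟨t, ht⟩ := hxy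
            refine ⟨t, ?_⟩
            have hmz : (3 * (m : ℤ)) ≠ 0 := by positivity
            apply mul_left_cancel₀ hmz
            rw [← hxr] at ht
            push_cast at ht
            linear_combination ht - h6
        · rintro ⟨x, y, hx, hy, t, ht⟩
          have hys : y ≤ s := by omega
          refine ⟨3 * m * x + (s - y), y, ?_, hy, ⟨t, ?_⟩⟩
          · have : 3 * m * x ≤ 3 * m * w i := Nat.mul_le_mul_left _ hx
            omega
          · push_cast [Nat.cast_sub hys]
            linear_combination (3 * (m : ℤ)) * ht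

/-- Padding with trivial generators. -/
theorem prog_append {G : Type} [CommGroup G] {k : ℕ} (r : ℕ) (a : Fin k → G) (N : Fin k → ℕ) :
    prog (Fin.append a (fun _ : Fin r => (1 : G))) (Fin.append N (fun _ : Fin r => 0)) =
      prog a N := by
  ext g
  rw [mem_prog, mem_prog]
  constructor
  · rintro ⟨n, hn, rfl⟩
    refine ⟨fun i => n (Fin.castAdd r i), fun i => ?_, ?_⟩
    · have := hn (Fin.castAdd r i)
      rwa [Fin.append_left] at this
    · rw [Fin.prod_univ_add]
      simp
  · rintro ⟨n, hn, rfl⟩
    refine ⟨Fin.append n (fun _ => 0), fun i => ?_, ?_⟩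
    · refine Fin.addCases (fun i => ?_) (fun i => ?_) i
      · simpa using hn i
      · simp
    · rw [Fin.prod_univ_add]
      simp

/-- The generators used in `Multiplicative (ℤ × ℤ × ZMod m)`. -/
def gen (m : ℕ) (l : ℤ) : Fin 4 → Multiplicative (ℤ × ℤ × ZMod m) :=
  ![Multiplicative.ofAdd (1, 0, -1), Multiplicative.ofAdd (-1, 0, 0),
    Multiplicative.ofAdd (0, 1, -(l : ZMod m)), Multiplicative.ofAdd (0, -1, 0)]

theorem gen_prod (m : ℕ) (l : ℤ) (n : Fin 4 → ℤ) :
    ∏ i, gen m l i ^ n i =
      Multiplicative.ofAdd (n 0 - n 1, n 2 - n 3, ((-(n 0) - l * n 2 : ℤ) : ZMod m)) := by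
  rw [Fin.prod_univ_four]
  simp only [gen, Matrix.cons_val_zero, Matrix.cons_val_one, Matrix.cons_val]
  rw [← ofAdd_zsmul, ← ofAdd_zsmul, ← ofAdd_zsmul, ← ofAdd_zsmul, ← ofAdd_add, ← ofAdd_add,
    ← ofAdd_add]
  congr 1
  ext
  · simp [sub_eq_add_neg]
  · simp [sub_eq_add_neg]
  · simp
    ring

theorem mem_gen (m : ℕ) (l : ℤ) (M : ℕ) (p q : ℤ) (z : ZMod m) :
    (Multiplicative.ofAdd (p, q, z) ∈ prog (gen m l) (fun _ => M)) ↔
      ∃ n : Fin 4 → ℤ, (∀ i, (n i).natAbs ≤ M) ∧ n 0 - n 1 = p ∧ n 2 - n 3 = q ∧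
        (((-(n 0) - l * n 2 : ℤ) : ZMod m)) = z := by
  rw [mem_prog]
  refine exists_congr fun n => and_congr Iff.rfl ?_
  rw [gen_prod]
  constructor
  · intro h1
    have h2 := Multiplicative.ofAdd.injective h1
    rw [Prod.mk.injEq, Prod.mk.injEq] at h2
    exact h2
  · rintro ⟨h1, h2, h3⟩
    rw [h1, h2, h3]

/-- The point attached to the pair `(w, h)`. -/
def pt (m M w h : ℕ) : Multiplicative (ℤ × ℤ × ZMod m) :=
  Multiplicative.ofAdd ((2 * M - w : ℤ), (2 * M - h : ℤ), (0 : ZMod m))

/-- The translating element. -/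
def tr (m : ℕ) (l : ℤ) (M : ℕ) (c : ℤ) : Multiplicative (ℤ × ℤ × ZMod m) :=
  Multiplicative.ofAdd (0, 0, ((c - (1 + l) * M : ℤ) : ZMod m))

theorem tr_mul_pt (m : ℕ) (l : ℤ) (M w h : ℕ) (c : ℤ) :
    tr m l M c * pt m M w h = Multiplicative.ofAdd ((2 * M - w : ℤ), (2 * M - h : ℤ),
      ((c - (1 + l) * M : ℤ) : ZMod m)) := by
  rw [tr, pt, ← ofAdd_add]
  congr 1
  ext <;> simp

theorem key (m : ℕ) (l : ℤ) (M w h : ℕ) (hw : w ≤ M) (hh : h ≤ M) (c : ℤ) :
    (∃ x y : ℕ, x ≤ w ∧ y ≤ h ∧ (m : ℤ) ∣ c - x - l * y) ↔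
      pt m M w h ∈ (fun x => (tr m l M c)⁻¹ * x) '' prog (gen m l) (fun _ => M) := by
  have e1 : pt m M w h ∈ (fun x => (tr m l M c)⁻¹ * x) '' prog (gen m l) (fun _ => M) ↔
      tr m l M c * pt m M w h ∈ prog (gen m l) (fun _ => M) := by
    constructor
    · rintro ⟨x, hx, hxy⟩
      simp only at hxy
      rw [← hxy, mul_inv_cancel_left]
      exact hx
    · intro hx
      exact ⟨_, hx, by simp⟩
  rw [e1, tr_mul_pt, mem_gen]
  constructor
  · rintro ⟨x, y, hx, hy, t, ht⟩
    refine ⟨![M - x, -M + (w - x), M - y, -M + (h - y)], ?_, ?_, ?_, ?_⟩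
    · intro j
      fin_cases j <;> simp <;> omega
    · simp
      ring
    · simp
      ring
    · rw [ZMod.intCast_eq_intCast_iff_dvd_sub]
      refine ⟨t, ?_⟩
      simp only [Matrix.cons_val_zero, Matrix.cons_val]
      linear_combination ht
  · rintro ⟨n, hn, h1, h2, h3⟩
    have n0 := hn 0
    have n1 := hn 1
    have n2 := hn 2
    have n3 := hn 3
    refine ⟨(M - n 0).toNat, (M - n 2).toNat, by omega, by omega, ?_⟩
    rw [ZMod.intCast_eq_intCast_iff_dvd_sub] at h3
    obtain ⟨t, ht⟩ := h3
    refine ⟨t, ?_⟩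
    rw [Int.toNat_of_nonneg (by omega), Int.toNat_of_nonneg (by omega)]
    linear_combination ht

theorem unbounded_four (C : ℕ) : ∃ (G : Type) (_ : CommGroup G) (a : Fin 4 → G)
    (N : Fin 4 → ℕ), (C : ℕ∞) < vcDim (translates (prog a N)) := by
  classical
  obtain ⟨m, l, w, h, hm, -, -, hB⟩ := core (C + 1)
  obtain ⟨M, hM⟩ : ∃ M : ℕ, ∀ i, w i ≤ M ∧ h i ≤ M :=
    ⟨∑ i, (w i + h i), fun i => by
      have := Finset.single_le_sum (f := fun i => w i + h i) (fun _ _ => Nat.zero_le _)
        (Finset.mem_univ i)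
      constructor <;> omega⟩
  have hkey := fun (c : ℤ) (i : Fin (C + 1)) => key m l M (w i) (h i) (hM i).1 (hM i).2 c
  have hinj : Function.Injective (fun i => pt m M (w i) (h i)) := by
    intro i j hij
    simp only at hij
    by_contra hne
    obtain ⟨c, hc⟩ := hB (fun t => t = i)
    have hi := (hkey c i).1 ((hc i).2 rfl)
    rw [hij] at hi
    exact hne ((hc j).1 ((hkey c j).2 hi)).symm
  refine ⟨Multiplicative (ℤ × ℤ × ZMod m), inferInstance, gen m l, fun _ => M, ?_⟩
  have hYcard : (Finset.univ.image (fun i => pt m M (w i) (h i))).card = C + 1 := by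
    rw [Finset.card_image_of_injective _ hinj]
    simp
  have hsh : Shatters (translates (prog (gen m l) (fun _ => M)))
      (Finset.univ.image (fun i => pt m M (w i) (h i))) := by
    intro B hBY
    obtain ⟨c, hc⟩ := hB (fun t => pt m M (w t) (h t) ∈ B)
    refine ⟨_, ⟨(tr m l M c)⁻¹, rfl⟩, ?_⟩
    ext x
    constructor
    · rintro ⟨hx, hxY⟩
      rw [Finset.mem_coe, Finset.mem_image] at hxY
      obtain ⟨i, -, rfl⟩ := hxY
      exact (hc i).1 ((hkey c i).2 hx)
    · intro hx
      have hxY := hBY hx
      refine ⟨?_, hxY⟩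
      rw [Finset.mem_image] at hxY
      obtain ⟨i, -, rfl⟩ := hxY
      exact (hkey c i).1 ((hc i).2 hx)
  have hle := le_iSup₂_of_le
    (f := fun (Y : Finset (Multiplicative (ℤ × ℤ × ZMod m)))
      (_ : Shatters (translates (prog (gen m l) (fun _ => M))) Y) => (Y.card : ℕ∞)) _ hsh le_rfl
  refine lt_of_lt_of_le ?_ hle
  rw [hYcard]
  exact_mod_cast Nat.lt_succ_self C

/-- For every `k ≥ 4` the VC-dimension of the families of translates of generalized progressions
of rank `k` in abelian groups is unbounded; in particular the uniform bound of Q1 fails. -/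
theorem result :
    (∀ k : ℕ, 4 ≤ k → ∀ C : ℕ, ∃ (G : Type) (_ : CommGroup G) (a : Fin k → G) (N : Fin k → ℕ),
      (C : ℕ∞) < vcDim (translates (prog a N))) ∧ ¬ UniformBound := by
  have main : ∀ k : ℕ, 4 ≤ k → ∀ C : ℕ, ∃ (G : Type) (_ : CommGroup G) (a : Fin k → G)
      (N : Fin k → ℕ), (C : ℕ∞) < vcDim (translates (prog a N)) := by
    intro k hk C
    obtain ⟨r, rfl⟩ := Nat.exists_eq_add_of_le hk
    obtain ⟨G, inst, a, N, h⟩ := unbounded_four C
    exact ⟨G, inst, _, _, by rw [prog_append r a N]; exact h⟩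
  refine ⟨main, fun H => ?_⟩
  obtain ⟨C, hC⟩ := H 4 1 (by norm_num) le_rfl
  obtain ⟨G, inst, a, N, h⟩ := main 4 le_rfl C
  have hn : Group.IsNilpotent G := inferInstance
  exact absurd (@hC G _ hn (CommGroup.nilpotencyClass_le_one) a N) (not_le.mpr h)

end Pool.Agent.Results.MP_19d06a_co.UnboundedAbelianRankFour
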